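import Pool.Agent.W747.RG.Exp

/-!
# A diffeomorphism of the two-torus without a measure attaining equality in Ruelle's inequality

The map `f (a, b) = (a + (1/2) sin a cos b, b - (1/2) cos a sin b)` is a real-analytic
diffeomorphism of the torus. The function `|sin a sin b|` is a strict Lyapunov function off the four
sources, so that every other orbit accumulates on the circles `sin a sin b = 0`, which form a
network of heteroclinic connections between four saddles. Every invariant probability measure is a
convex combination of the eight Dirac masses at these fixed points: its entropy is zero, but all its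
points have a positive exponent.
-/

set_option autoImplicit false

open MeasureTheory

namespace Pool.Agent.Results.MP_794bd6_an.NoEntropyFormula

open Pool.Agent.W747.RG Pool.Agent.H576R3.Defs

/-- There is a real-analytic diffeomorphism `f` of the two-torus such that every `f`-invariant Borel
probability measure `ρ` satisfies `h(ρ) ≤ ∫ χ₊ dρ - log (5/4)`; in particular `h(ρ) < ∫ χ₊ dρ` for
every invariant `ρ`. -/
theorem result :
    ∃ (f f' : Torus → Torus) (F F' : ℂ → ℂ), IsDiffeo f f' F F' ∧
      ∀ ρ : Measure Torus, IsProbabilityMeasure ρ → MeasurePreserving f ρ ρ →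
        ∃ χ : Torus → ℝ, (∀ᵐ x ∂ρ, IsChiPlus F F' x (χ x)) ∧ Integrable χ ρ ∧
          ksEntropy ρ f ≤ ((∫ x, χ x ∂ρ - Real.log (5 / 4) : ℝ) : EReal) := by
  refine ⟨Pool.Agent.W747.RG.f, Pool.Agent.W747.RG.f', Pool.Agent.W747.RG.F, Pool.Agent.W747.RG.G,
    isDiffeo, fun ρ hρ hinv => ⟨chi, ?_, ?_, ?_⟩⟩
  · filter_upwards [ae_fix hinv] with x hx
    exact isChiPlus_fix hx
  · obtain ⟨C, hC⟩ := (isCompact_univ (X := Torus)).exists_bound_of_continuousOn
      continuous_chi.continuousOn
    exact Integrable.of_bound continuous_chi.measurable.aestronglyMeasurable C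
      (Filter.Eventually.of_forall fun x => hC x (Set.mem_univ x))
  · refine (ksEntropy_zero hinv).trans ?_
    have hint : Integrable chi ρ := by
      obtain ⟨C, hC⟩ := (isCompact_univ (X := Torus)).exists_bound_of_continuousOn
        continuous_chi.continuousOn
      exact Integrable.of_bound continuous_chi.measurable.aestronglyMeasurable C
        (Filter.Eventually.of_forall fun x => hC x (Set.mem_univ x))
    have h1 : Real.log (5 / 4) ≤ ∫ x, chi x ∂ρ := by
      have h2 : ∫ _x : Torus, Real.log (5 / 4) ∂ρ ≤ ∫ x, chi x ∂ρ :=
        integral_mono_ae (integrable_const _) hint (by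
          filter_upwards [ae_fix hinv] with x hx
          exact chi_ge hx)
      simpa using h2
    have h3 : (0 : ℝ) ≤ ∫ x, chi x ∂ρ - Real.log (5 / 4) := by linarith
    exact_mod_cast h3

end Pool.Agent.Results.MP_794bd6_an.NoEntropyFormula
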